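import Pool.Agent.Lib.MP_ed4bd1_lc.Analysis
import Pool.Agent.Lib.MP_ed4bd1_lc.Process
import Pool.Agent.Lib.MP_ed4bd1_lc.Algo

set_option autoImplicit false

/-!
# MP_ed4bd1_lc: a deterministic constant-competitive exploration algorithm for all weighted graphs
-/

open Pool.Agent.Lib.MP_ed4bd1_lc

namespace Pool.Agent.Results.MP_ed4bd1_lc.Deterministic

/-- A finite connected undirected graph with a positive length on every edge. The vertices are
labelled by natural numbers: `V` is the vertex set, `G` the adjacency, `len u v` the length of the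
edge `uv` (its values at pairs that are not edges are irrelevant). -/
structure Network where
  V : Finset ℕ
  G : SimpleGraph ℕ
  len : ℕ → ℕ → ℝ
  edge_mem : ∀ u v, G.Adj u v → u ∈ V ∧ v ∈ V
  connected : ∀ u ∈ V, ∀ v ∈ V, G.Reachable u v
  len_symm : ∀ u v, len u v = len v u
  len_pos : ∀ u v, G.Adj u v → 0 < len u v

open Classical in
/-- What the searcher learns at the vertex `v`: for every label `u`, whether `u` is a neighbour of
`v`, and the length of the edge `vu` if it is. -/
noncomputable def Network.view (N : Network) (v : ℕ) : ℕ → Option ℝ :=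
  fun u => if N.G.Adj v u then some (N.len v u) else none

/-- A deterministic on-line algorithm: a function from the history (the visited vertices in order,
each with what was learned there) to the next vertex. -/
abbrev Algorithm : Type := List (ℕ × (ℕ → Option ℝ)) → ℕ

/-- The vertices visited in the first `n` moves (the start `s` included). -/
noncomputable def Network.run (N : Network) (A : Algorithm) (s : ℕ) : ℕ → List ℕ
  | 0 => [s]
  | n + 1 => N.run A s n ++ [A ((N.run A s n).map fun v => (v, N.view v))]

/-- `l` is a walk in `N` that starts at `s` and visits every vertex of `N`. -/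
def Network.IsTour (N : Network) (s : ℕ) (l : List ℕ) : Prop :=
  l.head? = some s ∧ l.IsChain N.G.Adj ∧ ∀ v ∈ N.V, v ∈ l

/-- The length of a walk: the sum of the lengths of its steps. -/
noncomputable def Network.walkLength (N : Network) (l : List ℕ) : ℝ :=
  ((l.zip l.tail).map fun e => N.len e.1 e.2).sum

/-! ## Proof -/

section aux

open Classical in
noncomputable def wOf (N : Network) (u v : ℕ) : ℝ := if N.G.Adj u v then N.len u v else 0

theorem wOf_pos (N : Network) {u v : ℕ} : 0 < wOf N u v ↔ N.G.Adj u v := by
  unfold wOf
  split_ifs with h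
  · simp [h, N.len_pos u v h]
  · simp [h]

theorem wOf_adj (N : Network) {u v : ℕ} (h : N.G.Adj u v) : wOf N u v = N.len u v := by
  unfold wOf; rw [if_pos h]

theorem gr_wOf (N : Network) : Gr (wOf N) N.V := by
  refine ⟨?_, ?_, ?_⟩
  · intro u v
    unfold wOf
    by_cases h : N.G.Adj u v
    · rw [if_pos h, if_pos h.symm, N.len_symm]
    · rw [if_neg h, if_neg (fun h' => h h'.symm)]
  · intro u v
    unfold wOf
    split_ifs with h
    · exact (N.len_pos u v h).le
    · exact le_rfl
  · intro u v h
    exact N.edge_mem u v ((wOf_pos N).1 h)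

theorem conn_wOf (N : Network) : ∀ u ∈ N.V, ∀ v ∈ N.V,
    Relation.ReflTransGen (fun x y => 0 < wOf N x y) u v := by
  intro u hu v hv
  have h := N.connected u hu v hv
  rw [SimpleGraph.reachable_iff_reflTransGen] at h
  exact Relation.ReflTransGen.mono (fun a b hab => (wOf_pos N).2 hab) _ _ h

theorem plen_wOf (N : Network) : ∀ l : List ℕ, l.IsChain N.G.Adj →
    plen (wOf N) l = N.walkLength l
  | [], _ => by simp [plen, Network.walkLength]
  | [a], _ => by simp [plen, Network.walkLength]
  | a :: b :: l, h => by
    rw [List.isChain_cons_cons] at h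
    have ih := plen_wOf N (b :: l) h.2
    rw [alg_plen_cons_cons, ih, wOf_adj N h.1]
    simp [Network.walkLength]

/-- decode a history -/
noncomputable def decode (h : List (ℕ × (ℕ → Option ℝ))) : List (ℕ × (ℕ → ℝ)) :=
  h.map fun x => (x.1, fun u => (x.2 u).getD 0)

theorem decode_hist (N : Network) (p : List ℕ) :
    decode (p.map fun v => (v, N.view v)) = p.map fun v => (v, wOf N v) := by
  unfold decode
  rw [List.map_map]
  refine List.map_congr_left fun v _ => ?_
  simp only [Function.comp]
  congr 1
  funext u
  unfold Network.view wOf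
  split_ifs <;> simp

end aux

/-- **There is a deterministic on-line algorithm that is constant competitive on the class of all
finite connected weighted graphs.** -/
theorem result : ∃ (A : Algorithm) (c : ℝ), ∀ (N : Network) (s : ℕ), s ∈ N.V →
    ∃ n : ℕ, N.IsTour s (N.run A s n) ∧
      ∀ l : List ℕ, N.IsTour s l → N.walkLength (N.run A s n) ≤ c * N.walkLength l := by
  obtain ⟨rt, hrt⟩ := exists_rule
  obtain ⟨CC, hCC0, hCC⟩ := trace_cost
  refine ⟨fun h => n7nx rt (decode h), 2 * CC, ?_⟩
  intro N s hs
  set w := wOf N with hw
  have hG : Gr w N.V := gr_wOf N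
  have hconn := conn_wOf N
  obtain ⟨hR, hT⟩ := hrt hG hconn hs
  have hR' : ∀ t, ¬ (∀ v ∈ N.V, v ∈ XS rt w s t) → Route w (XS rt w s t) (n7rte rt w s t) := hR
  -- the number of rounds is finite
  have hfin : ∃ T, ∀ v ∈ N.V, v ∈ XS rt w s T := by
    by_contra hcon
    have hcon' : ∀ t, ¬ ∀ v ∈ N.V, v ∈ XS rt w s t := fun t h => hcon ⟨t, h⟩
    have hnd : ∀ t, (XS rt w s t).Nodup ∧ (XS rt w s t).length = t + 1 ∧
        ∀ a ∈ XS rt w s t, a ∈ N.V := by
      intro t
      induction t with
      | zero => exact ⟨by simp [XS], by simp [XS], by simp [XS, hs]⟩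
      | succ t ih =>
        obtain ⟨i1, i2, i3⟩ := ih
        have hr := hR' t (hcon' t)
        rw [n7_XS_succ]
        refine ⟨?_, by simp [i2], ?_⟩
        · rw [List.nodup_append]
          refine ⟨i1, by simp, ?_⟩
          intro a ha b hb hab
          rw [List.mem_singleton] at hb
          exact hr.new (by rw [← hb, ← hab]; exact ha)
        · intro a ha
          rw [List.mem_append, List.mem_singleton] at ha
          rcases ha with ha | ha
          · exact i3 a ha
          · -- the last vertex of the route
            have hch := hr.chain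
            have hlast : (n7rte rt w s t).getLastD 0 = (n7rte rt w s t).getLast hr.ne := by
              rw [List.getLastD_eq_getLast?, List.getLast?_eq_getLast_of_ne_nil hr.ne]
              rfl
            have key : ∀ (q : List ℕ) (a : ℕ), (a :: q).IsChain (fun a b => 0 < w a b) →
                ∀ c ∈ q, c ∈ N.V := by
              intro q
              induction q with
              | nil => intro a _ c hc; simp at hc
              | cons b q ih =>
                intro a hq c hc
                rw [List.isChain_cons_cons] at hq
                rcases List.mem_cons.1 hc with rfl | hc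
                · exact (hG.supp _ _ hq.1).2
                · exact ih b hq.2 c hc
            rw [ha, hlast]
            exact key _ _ hch _ (List.getLast_mem hr.ne)
    obtain ⟨i1, i2, i3⟩ := hnd N.V.card
    have h1 : (XS rt w s N.V.card).toFinset ⊆ N.V := by
      intro a ha
      exact i3 a (List.mem_toFinset.1 ha)
    have h2 := Finset.card_le_card h1
    rw [List.toFinset_card_of_nodup i1, i2] at h2
    omega
  classical
  obtain ⟨T, hTall, hTmin⟩ : ∃ T, (∀ v ∈ N.V, v ∈ XS rt w s T) ∧
      ∀ t, t < T → ¬ ∀ v ∈ N.V, v ∈ XS rt w s t :=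
    ⟨Nat.find hfin, Nat.find_spec hfin, fun t ht => Nat.find_min hfin ht⟩
  have hstep : ∀ n, N.run (fun h => n7nx rt (decode h)) s (n + 1) =
      N.run (fun h => n7nx rt (decode h)) s n ++
        [n7nx rt ((N.run (fun h => n7nx rt (decode h)) s n).map fun v => (v, w v))] := by
    intro n
    have e : N.run (fun h => n7nx rt (decode h)) s (n + 1) =
      N.run (fun h => n7nx rt (decode h)) s n ++ [n7nx rt
        (decode ((N.run (fun h => n7nx rt (decode h)) s n).map fun v => (v, N.view v)))] := rfl
    rw [e, decode_hist]
  -- the run follows the routes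
  have hrun : ∀ t, t ≤ T → N.run (fun h => n7nx rt (decode h)) s ((n7wk rt w s t).length - 1) =
      n7wk rt w s t := by
    intro t
    induction t with
    | zero => intro _; simp [n7wk, Network.run]
    | succ t ih =>
      intro ht
      have ih' := ih (by omega)
      obtain ⟨f1, f2, f3, f4, f5⟩ := n7_wk_facts (rt := rt) (w := w) (s := s) t
        (fun t' ht' => hR' t' (hTmin t' (by omega)))
      have hin : ∀ k, k ≤ (n7rte rt w s t).length →
          N.run (fun h => n7nx rt (decode h)) s ((n7wk rt w s t).length - 1 + k) =
            n7wk rt w s t ++ (n7rte rt w s t).take k := by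
        intro k
        induction k with
        | zero => intro _; simpa using ih'
        | succ k ihk =>
          intro hk
          have ihk' := ihk (by omega)
          have hk' : k < (n7rte rt w s t).length := by omega
          rw [← Nat.add_assoc, hstep, ihk', n7_nx w s t k (fun a ha => (f1 a).2 ha) f2 hk',
            List.append_assoc]
          congr 1
          rw [List.take_add_one, List.getD_eq_getElem _ _ hk', List.getElem?_eq_getElem hk']
          rfl
      have e1 : n7wk rt w s (t + 1) = n7wk rt w s t ++ n7rte rt w s t := rfl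
      have h2 := hin _ le_rfl
      rw [List.take_length] at h2
      rw [e1, ← h2]
      congr 1
      rw [h2, List.length_append]
      omega
  obtain ⟨f1, f2, f3, f4, f5⟩ := n7_wk_facts (rt := rt) (w := w) (s := s) T
    (fun t' ht' => hR' t' (hTmin t' ht'))
  have f4' : (n7wk rt w s T).IsChain N.G.Adj := f4.imp (fun a b h => (wOf_pos N).1 h)
  refine ⟨(n7wk rt w s T).length - 1, ?_, ?_⟩
  · rw [hrun T le_rfl]
    refine ⟨?_, f4', fun v hv => (f1 v).2 (hTall v hv)⟩
    obtain ⟨m, hm⟩ := n7_wk_prefix (rt := rt) w s (Nat.zero_le T)
    have h0 : n7wk rt w s 0 = [s] := rfl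
    rw [h0] at hm
    rw [← hm]
    rfl
  · intro l hl
    obtain ⟨_, hlc, hcov⟩ := hl
    rw [hrun T le_rfl, ← plen_wOf N _ f4', ← plen_wOf N _ hlc, f5]
    obtain ⟨v, src, m, cen, htr, hv0, hvV, hcost⟩ := hT T hTmin
    obtain ⟨c, hc1, hc2⟩ := hCC hG hconn htr hvV l
      (hlc.imp (fun a b h => (wOf_pos N).2 h)) hcov
    calc ∑ t ∈ Finset.range T, plen w ((XS rt w s t).getLastD 0 :: n7rte rt w s t)
        ≤ ∑ t ∈ Finset.range T, 2 * (c t + w (v (src (t + 1))) (v (t + 1))) := by
          refine Finset.sum_le_sum ?_
          intro t ht
          rw [Finset.mem_range] at ht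
          have h1 := hcost t ht (c t) (hc1 t ht)
          have h3 := hG.nonneg (v (src (t + 1))) (v (t + 1))
          have h4 : plen w ((XS rt w s t).getLastD 0 :: n7rte rt w s t) ≤
              2 * c t + w (v (src (t + 1))) (v (t + 1)) := h1
          linarith
      _ = 2 * ∑ t ∈ Finset.range T, (c t + w (v (src (t + 1))) (v (t + 1))) := by
          rw [Finset.mul_sum]
      _ ≤ 2 * (CC * plen w l) := by
          have : ∑ t ∈ Finset.range T, (c t + w (v (src (t + 1))) (v (t + 1))) ≤ CC * plen w l := hc2
          linarith
      _ = _ := by ring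

end Pool.Agent.Results.MP_ed4bd1_lc.Deterministic
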